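import Mathlib

/-!
# NTW squad, row SLD: sliding balls (helper41), Euclidean geometry
-/

set_option autoImplicit false

open Filter Topology

namespace Pool.Agent.NTW.H41

variable {K : ℕ}

/-- the square of the Euclidean norm -/
def q (x : Fin K → ℝ) : ℝ := ∑ i, x i ^ 2

/-- the inner product -/
def p (x y : Fin K → ℝ) : ℝ := ∑ i, x i * y i

theorem q_nonneg (x : Fin K → ℝ) : 0 ≤ q x := Finset.sum_nonneg fun i _ => sq_nonneg _

theorem sq_le_q (x : Fin K → ℝ) (i : Fin K) : x i ^ 2 ≤ q x :=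
  Finset.single_le_sum (f := fun i => x i ^ 2) (fun i _ => sq_nonneg _) (Finset.mem_univ i)

theorem q_sub (x y : Fin K → ℝ) (ε : ℝ) :
    q (fun i => x i - ε * y i) = q x - 2 * ε * p x y + ε ^ 2 * q y := by
  unfold q p
  rw [Finset.mul_sum, Finset.mul_sum, ← Finset.sum_sub_distrib, ← Finset.sum_add_distrib]
  exact Finset.sum_congr rfl fun i _ => by ring

theorem q_add_const (x : Fin K → ℝ) (a : ℝ) :
    q (fun i => x i + a) = q x + 2 * a * (∑ i, x i) + K * a ^ 2 := by
  unfold q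
  have e : ∀ i, (x i + a) ^ 2 = x i ^ 2 + 2 * a * x i + a ^ 2 := fun i => by ring
  rw [Finset.sum_congr rfl fun i _ => e i, Finset.sum_add_distrib, Finset.sum_add_distrib,
    ← Finset.mul_sum, Finset.sum_const, Finset.card_univ, Fintype.card_fin, nsmul_eq_mul]

theorem two_p_le (x y : Fin K → ℝ) {r : ℝ} (hr : 0 < r) :
    2 * p x y ≤ q x / r ^ 2 + r ^ 2 * q y := by
  unfold p q
  rw [Finset.mul_sum, Finset.sum_div, Finset.mul_sum, ← Finset.sum_add_distrib]
  refine Finset.sum_le_sum fun i _ => ?_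
  have h : 0 ≤ (x i / r - r * y i) ^ 2 := sq_nonneg _
  have e : (x i / r - r * y i) ^ 2 = x i ^ 2 / r ^ 2 - 2 * (x i * y i) + r ^ 2 * y i ^ 2 := by
    field_simp
    ring
  linarith

theorem p_smul_right (x y : Fin K → ℝ) (ε : ℝ) : p x (fun i => ε * y i) = ε * p x y := by
  unfold p
  rw [Finset.mul_sum]
  exact Finset.sum_congr rfl fun i _ => by ring

theorem q_smul (y : Fin K → ℝ) (ε : ℝ) : q (fun i => ε * y i) = ε ^ 2 * q y := by
  unfold q
  rw [Finset.mul_sum]
  exact Finset.sum_congr rfl fun i _ => by ring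

theorem one_step (B : Set (Fin K → ℝ)) (b : Fin K → ℝ) (r : ℝ) (hr : 2 ≤ r)
    (h1 : ∀ t ∈ B, ∀ a : ℝ, (fun i => t i + a) ∈ B) (h2 : ∀ t ∈ B, ∃ i, r ^ 2 < |t i|)
    (hb : b ∈ B) : ∃ t d : Fin K → ℝ, t ∈ B ∧ r ^ 2 ≤ q d ∧ q d < r ^ 2 + 3 ∧
      (∀ s : Fin K → ℝ, q (fun i => s i - d i) < r ^ 2 → (fun i => t i + s i) ∉ B) ∧
      p d b < 0 ∧ (∑ i, d i) ^ 2 ≤ 3 * K := by
  have hr0 : 0 < r := by linarith
  -- large norms
  have hq : ∀ t ∈ B, r ^ 2 ≤ q t := by
    intro t ht
    obtain ⟨i, hi⟩ := h2 t ht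
    have h3 := sq_le_q t i
    have h4 : (r ^ 2) ^ 2 < t i ^ 2 := by
      rw [← sq_abs (t i)]
      exact pow_lt_pow_left₀ hi (by positivity) (by norm_num)
    have h5 : 1 ≤ r ^ 2 := by nlinarith
    have h6 : r ^ 2 ≤ (r ^ 2) ^ 2 := by nlinarith
    linarith
  have hqb : 0 < q b := lt_of_lt_of_le (by positivity) (hq b hb)
  set A : Set ℝ := {θ | 0 ≤ θ ∧ θ ≤ 1 ∧ ∃ t ∈ B, q (fun i => t i - θ * b i) < r ^ 2} with hA
  have hA1 : (1 : ℝ) ∈ A := by
    refine ⟨zero_le_one, le_refl 1, b, hb, ?_⟩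
    have e : (fun i => b i - 1 * b i) = fun _ => (0 : ℝ) := by funext i; ring
    rw [e]
    have : q (fun _ : Fin K => (0 : ℝ)) = 0 := by unfold q; simp
    rw [this]
    positivity
  have hAb : BddBelow A := ⟨0, fun θ h => h.1⟩
  set θs := sInf A with hθs
  have hθ0 : 0 ≤ θs := le_csInf ⟨1, hA1⟩ fun θ h => h.1
  have hθ1 : θs ≤ 1 := csInf_le hAb hA1
  have hnot : θs ∉ A := by
    rintro ⟨-, -, t, ht, hlt⟩
    rcases hθ0.eq_or_lt with h0 | h0
    · rw [← h0] at hlt
      have e : (fun i => t i - 0 * b i) = t := by funext i; ring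
      rw [e] at hlt
      exact absurd hlt (not_lt.2 (hq t ht))
    · have hc : Continuous fun θ : ℝ => q (fun i => t i - θ * b i) := by
        unfold q; fun_prop
      have hev : ∀ᶠ θ in 𝓝[<] θs, q (fun i => t i - θ * b i) < r ^ 2 :=
        (hc.tendsto θs).eventually_lt_const hlt |>.filter_mono nhdsWithin_le_nhds
      have hev2 : ∀ᶠ θ in 𝓝[<] θs, 0 < θ :=
        (eventually_gt_nhds h0).filter_mono nhdsWithin_le_nhds
      obtain ⟨θ, h5, h6, h7⟩ := (hev.and (hev2.and eventually_mem_nhdsWithin)).exists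
      have h8 : θ < θs := h7
      exact absurd (csInf_le hAb ⟨h6.le, by linarith, t, ht, h5⟩) (not_le.2 h8)
  have hout : ∀ s ∈ B, r ^ 2 ≤ q (fun i => s i - θs * b i) := by
    intro s hs
    by_contra hc
    push Not at hc
    exact hnot ⟨hθ0, hθ1, s, hs, hc⟩
  -- a near parameter
  have hδ : 0 < 1 / (r * (q b + 1)) := by positivity
  obtain ⟨θ, hθA, hθlt⟩ := exists_lt_of_csInf_lt ⟨1, hA1⟩
    (lt_add_of_pos_right θs hδ)
  have hθge : θs ≤ θ := csInf_le hAb hθA
  have hne : θs ≠ θ := fun h => hnot (h ▸ hθA)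
  have hgt : θs < θ := lt_of_le_of_ne hθge hne
  obtain ⟨-, -, t, ht, htlt⟩ := hθA
  set ε := θ - θs with hε
  have hε0 : 0 < ε := by linarith
  have hε1 : ε < 1 / (r * (q b + 1)) := by linarith
  have hεq : r ^ 2 * (ε ^ 2 * q b) ≤ 1 := by
    have h3 : ε * (r * (q b + 1)) < 1 := by rwa [lt_div_iff₀ (by positivity)] at hε1
    have h4 : (ε * (r * (q b + 1))) ^ 2 ≤ 1 := by
      have : 0 ≤ ε * (r * (q b + 1)) := by positivity
      nlinarith
    have h5 : q b ≤ (q b + 1) ^ 2 := by nlinarith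
    calc r ^ 2 * (ε ^ 2 * q b) ≤ r ^ 2 * (ε ^ 2 * (q b + 1) ^ 2) := by gcongr
      _ = (ε * (r * (q b + 1))) ^ 2 := by ring
      _ ≤ 1 := h4
  set d : Fin K → ℝ := fun i => θs * b i - t i with hd
  have hqd : q d = q (fun i => t i - θs * b i) := by
    unfold q
    exact Finset.sum_congr rfl fun i _ => by rw [hd]; ring
  have hd1 : r ^ 2 ≤ q d := by rw [hqd]; exact hout t ht
  -- relation of the two
  have hrel : q (fun i => t i - θ * b i) = q d + 2 * ε * p d b + ε ^ 2 * q b := by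
    have e : (fun i => t i - θ * b i) = fun i => (-(d i)) - ε * b i := by
      funext i; rw [hd, hε]; ring
    rw [e, q_sub (fun i => -(d i)) b ε]
    have e1 : q (fun i => -(d i)) = q d := by
      unfold q; exact Finset.sum_congr rfl fun i _ => by ring
    have e2 : p (fun i => -(d i)) b = - p d b := by
      unfold p; rw [← Finset.sum_neg_distrib]; exact Finset.sum_congr rfl fun i _ => by ring
    rw [e1, e2]; ring
  have hpd : p d b < 0 := by
    by_contra hc
    push Not at hc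
    have h3 : 0 ≤ 2 * ε * p d b := by positivity
    have h4 : 0 ≤ ε ^ 2 * q b := by positivity
    linarith
  have hd2 : q d < r ^ 2 + 3 := by
    -- `q d = q (u + ε b)`, `u = t - θ b`
    set u : Fin K → ℝ := fun i => t i - θ * b i with hu
    have e : q d = q u + 2 * p u (fun i => ε * b i) + ε ^ 2 * q b := by
      have e1 : d = fun i => -(u i - (-ε) * b i) := by
        funext i; rw [hd, hu, hε]; ring
      have e2 : q d = q (fun i => u i - (-ε) * b i) := by
        rw [e1]; unfold q; exact Finset.sum_congr rfl fun i _ => by ring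
      rw [e2, q_sub, p_smul_right]; ring
    have h3 := two_p_le u (fun i => ε * b i) hr0
    rw [q_smul] at h3
    have h4 : q u / r ^ 2 ≤ 1 := by
      rw [div_le_one (by positivity)]; exact htlt.le
    have h5 : ε ^ 2 * q b ≤ 1 := by
      have h6 : 0 ≤ ε ^ 2 * q b := by positivity
      nlinarith
    linarith
  have hK : 0 < (K : ℝ) := by
    obtain ⟨i, -⟩ := h2 b hb
    have : 0 < K := i.pos
    exact_mod_cast this
  refine ⟨t, d, ht, hd1, hd2, ?_, hpd, ?_⟩
  · intro s hs hmem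
    have h3 := hout _ hmem
    have e : (fun i => t i + s i - θs * b i) = fun i => s i - d i := by
      funext i; rw [hd]; ring
    rw [e] at h3
    linarith
  · -- the sum
    have h3 := hout _ (h1 t ht ((∑ i, d i) / K))
    have e : (fun i => t i + (∑ i, d i) / K - θs * b i) =
        fun i => (-(d i)) + (∑ i, d i) / K := by
      funext i; rw [hd]; ring
    rw [e, q_add_const (fun i => -(d i))] at h3
    have e1 : q (fun i => -(d i)) = q d := by
      unfold q; exact Finset.sum_congr rfl fun i _ => by ring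
    rw [e1, Finset.sum_neg_distrib] at h3
    set S := ∑ i, d i with hS
    have e2 : q d + 2 * (S / K) * -S + K * (S / K) ^ 2 = q d - S ^ 2 / K := by
      field_simp; ring
    rw [e2] at h3
    have h4 : S ^ 2 / K ≤ 3 := by linarith
    rwa [div_le_iff₀ hK] at h4

end Pool.Agent.NTW.H41
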