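import Pool.Agent.NTW.StmtsD
import Pool.Agent.Helper41_NTW.SLDa

/-!
# NTW squad, row SLD: sliding balls (helper41)
-/

set_option autoImplicit false

open Filter Topology

namespace Pool.Agent.NTW.H41

theorem sld : Pool.Agent.NTW.SldStmt := by
  intro K B b h1 h2 h3 h4
  obtain ⟨φ0, hφ0, hφ0'⟩ := Filter.extraction_forall_of_eventually
    (fun m : ℕ => h2 (((m : ℝ) + 2) ^ 2))
  have hst := fun m : ℕ => one_step (B (φ0 m)) (b (φ0 m)) ((m : ℝ) + 2)
    (by have : (0 : ℝ) ≤ m := Nat.cast_nonneg m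
        linarith) (h1 (φ0 m)) (hφ0' m) (h3 (φ0 m))
  choose t d ht hd1 hd2 hd3 hd4 hd5 using hst
  have hm0 : ∀ m : ℕ, (0 : ℝ) < (m : ℝ) + 2 := fun m => by positivity
  have hN : ∀ m : ℕ, (m : ℝ) + 2 ≤ √(q (d m)) := fun m => Real.le_sqrt_of_sq_le (hd1 m)
  have hNp : ∀ m : ℕ, 0 < √(q (d m)) := fun m => (hm0 m).trans_le (hN m)
  have hqb : ∀ m : ℕ, 0 < q (b (φ0 m)) := by
    intro m
    obtain ⟨i, hi⟩ := hφ0' m _ (h3 (φ0 m))
    refine lt_of_lt_of_le ?_ (sq_le_q (b (φ0 m)) i)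
    rw [← sq_abs]
    have : 0 < |b (φ0 m) i| := lt_of_le_of_lt (by positivity) hi
    positivity
  have hbp : ∀ m : ℕ, 0 < √(q (b (φ0 m))) := fun m => Real.sqrt_pos.2 (hqb m)
  -- normalised vectors
  set u : ℕ → Fin K → ℝ := fun m i => (√(q (d m)))⁻¹ * d m i with hu
  set w : ℕ → Fin K → ℝ := fun m i => (√(q (b (φ0 m))))⁻¹ * b (φ0 m) i with hw
  have hqu : ∀ m, q (u m) = 1 := by
    intro m
    rw [hu, q_smul, inv_pow, Real.sq_sqrt (q_nonneg _)]
    exact inv_mul_cancel₀ (by have := hNp m; have := Real.sqrt_pos.1 this; exact this.ne')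
  have hqw : ∀ m, q (w m) = 1 := by
    intro m
    rw [hw, q_smul, inv_pow, Real.sq_sqrt (q_nonneg _)]
    exact inv_mul_cancel₀ (hqb m).ne'
  have hbd : ∀ x : Fin K → ℝ, q x = 1 → ‖x‖ ≤ 1 := by
    intro x hx
    refine (pi_norm_le_iff_of_nonneg zero_le_one).2 fun i => ?_
    have h5 := sq_le_q x i
    rw [hx] at h5
    rw [Real.norm_eq_abs]
    exact abs_le_one_iff_mul_self_le_one.2 (by nlinarith)
  obtain ⟨⟨ν, a⟩, -, φ1, hφ1, hlim⟩ := tendsto_subseq_of_bounded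
    (x := fun m => (u m, w m)) (s := Metric.closedBall 0 1) Metric.isBounded_closedBall
    (fun m => by
      rw [Metric.mem_closedBall, dist_zero_right]
      exact max_le (hbd _ (hqu m)) (hbd _ (hqw m)))
  have hlu : Tendsto (fun m => u (φ1 m)) atTop (𝓝 ν) := (Prod.tendsto_iff _ _).1 hlim |>.1
  have hlw : Tendsto (fun m => w (φ1 m)) atTop (𝓝 a) := (Prod.tendsto_iff _ _).1 hlim |>.2
  have hlu' : ∀ i, Tendsto (fun m => u (φ1 m) i) atTop (𝓝 (ν i)) := tendsto_pi_nhds.1 hlu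
  have hlw' : ∀ i, Tendsto (fun m => w (φ1 m) i) atTop (𝓝 (a i)) := tendsto_pi_nhds.1 hlw
  have hqc : Continuous (q : (Fin K → ℝ) → ℝ) := by unfold q; fun_prop
  have hqν : q ν = 1 := by
    have h5 := (hqc.tendsto ν).comp hlu
    refine tendsto_nhds_unique h5 ?_
    refine tendsto_const_nhds.congr fun m => ?_
    exact (hqu (φ1 m)).symm
  have hqa : q a = 1 := by
    have h5 := (hqc.tendsto a).comp hlw
    refine tendsto_nhds_unique h5 ?_
    refine tendsto_const_nhds.congr fun m => ?_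
    exact (hqw (φ1 m)).symm
  have hne : ∀ x : Fin K → ℝ, q x = 1 → x ≠ 0 := by
    intro x hx h0
    rw [h0] at hx
    have : q (0 : Fin K → ℝ) = 0 := by unfold q; simp
    rw [this] at hx
    exact zero_ne_one hx
  -- the norms tend to infinity
  have hmt : Tendsto (fun m : ℕ => ((φ1 m : ℕ) : ℝ) + 2) atTop atTop :=
    tendsto_atTop_add_const_right _ _ (tendsto_natCast_atTop_atTop.comp hφ1.tendsto_atTop)
  have hNt : Tendsto (fun m => √(q (d (φ1 m)))) atTop atTop :=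
    tendsto_atTop_mono (fun m => hN (φ1 m)) hmt
  have hNi : Tendsto (fun m => (√(q (d (φ1 m))))⁻¹) atTop (𝓝 0) := hNt.inv_tendsto_atTop
  have hsν : ∑ i, ν i = 0 := by
    have h5 : Tendsto (fun m => ∑ i, u (φ1 m) i) atTop (𝓝 (∑ i, ν i)) :=
      tendsto_finsetSum _ fun i _ => hlu' i
    have h6 : ∀ m, |∑ i, u (φ1 m) i| ≤ (√(q (d (φ1 m))))⁻¹ * √(3 * K) := by
      intro m
      have e : ∑ i, u (φ1 m) i = (√(q (d (φ1 m))))⁻¹ * ∑ i, d (φ1 m) i := by
        rw [hu, Finset.mul_sum]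
      rw [e, abs_mul, abs_of_pos (inv_pos.2 (hNp _))]
      refine mul_le_mul_of_nonneg_left ?_ (inv_pos.2 (hNp _)).le
      rw [← Real.sqrt_sq_eq_abs]
      exact Real.sqrt_le_sqrt (hd5 (φ1 m))
    have h7 : Tendsto (fun m => (√(q (d (φ1 m))))⁻¹ * √(3 * K)) atTop (𝓝 0) := by
      have := hNi.mul_const (√(3 * (K : ℝ)))
      rwa [zero_mul] at this
    have h8 : Tendsto (fun m => ∑ i, u (φ1 m) i) atTop (𝓝 0) :=
      squeeze_zero_norm (fun m => by rw [Real.norm_eq_abs]; exact h6 m) h7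
    exact tendsto_nhds_unique h5 h8
  have hsa : ∑ i, a i = 0 := by
    have h5 : Tendsto (fun m => ∑ i, w (φ1 m) i) atTop (𝓝 (∑ i, a i)) :=
      tendsto_finsetSum _ fun i _ => hlw' i
    refine tendsto_nhds_unique h5 ?_
    refine tendsto_const_nhds.congr fun m => ?_
    rw [hw, ← Finset.mul_sum, h4, mul_zero]
  have hνa : ∑ i, ν i * a i ≤ 0 := by
    have h5 : Tendsto (fun m => ∑ i, u (φ1 m) i * w (φ1 m) i) atTop (𝓝 (∑ i, ν i * a i)) :=
      tendsto_finsetSum _ fun i _ => (hlu' i).mul (hlw' i)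
    refine le_of_tendsto h5 (Eventually.of_forall fun m => ?_)
    have e : ∑ i, u (φ1 m) i * w (φ1 m) i =
        (√(q (d (φ1 m))))⁻¹ * (√(q (b (φ0 (φ1 m)))))⁻¹ * p (d (φ1 m)) (b (φ0 (φ1 m))) := by
      unfold p
      rw [Finset.mul_sum]
      exact Finset.sum_congr rfl fun i _ => by rw [hu, hw]; ring
    rw [e]
    exact mul_nonpos_of_nonneg_of_nonpos
      (mul_nonneg (inv_pos.2 (hNp _)).le (inv_pos.2 (hbp _)).le) (hd4 _).le
  refine ⟨fun m => φ0 (φ1 m), fun m => t (φ1 m), ν, a, fun m => (√(q (b (φ0 (φ1 m)))))⁻¹,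
    hφ0.comp hφ1, fun m => ht _, hne ν hqν, hsν, hne a hqa, hsa, fun m => inv_pos.2 (hbp _),
    hlw', hνa, ?_⟩
  intro s hs
  have h5 : Tendsto (fun m => ∑ i, u (φ1 m) i * s i) atTop (𝓝 (∑ i, ν i * s i)) :=
    tendsto_finsetSum _ fun i _ => (hlu' i).mul_const _
  have h6 : Tendsto (fun m => √(q (d (φ1 m))) * ∑ i, u (φ1 m) i * s i) atTop atTop :=
    hNt.atTop_mul_pos hs h5
  filter_upwards [h6.eventually_gt_atTop ((q s + 3) / 2)] with m hm
  refine hd3 (φ1 m) s ?_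
  have e1 : √(q (d (φ1 m))) * ∑ i, u (φ1 m) i * s i = p s (d (φ1 m)) := by
    unfold p
    rw [Finset.mul_sum]
    refine Finset.sum_congr rfl fun i _ => ?_
    rw [hu]
    have := (hNp (φ1 m)).ne'
    field_simp
  rw [e1] at hm
  have e2 : q (fun i => s i - d (φ1 m) i) = q s - 2 * p s (d (φ1 m)) + q (d (φ1 m)) := by
    have := q_sub s (d (φ1 m)) 1
    simp only [one_mul, mul_one, one_pow] at this
    exact this
  rw [e2]
  have h7 := hd2 (φ1 m)
  linarith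

end Pool.Agent.NTW.H41
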